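import Pool.Agent.Helper8.DL.Cfe

/-!
Packet MKC, part three: the table.
-/

set_option autoImplicit false
set_option linter.unusedTactic false
set_option linter.unreachableTactic false

open Complex (I)

namespace Pool.Agent.Helper8.DL

open Pool.Agent.Helper30.DL

variable {x y z : ℝ} {b : BsA} {t : ℝ} {Q : PmA} {P : Pm}

theorem cfe (O : Ops x y z) (L : Lv x y z b t Q P) : EncCf (mkCfA Q b) x y z (mkCf P t) := by
  have hx2 := O.fre1 (f_x2 O L)
  have hla := O.fre1 (f_la O L)
  have hR4 := O.add4 (O.fre4 (f_R4a O L)) (O.fab4 (f_R4b O L))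
  have hR5 := O.add5 (O.add5 (O.fre5 (f_R5a O L)) (O.fab5 (f_R5b O L))) (O.faa5 (f_R5c O L))
  have hg1 := O.add2 (O.fre2 (f_g1a O L)) (fab2 (f_g1b O L))
  have hg1c := O.add3 (O.fre3 (f_g1ca O L)) (O.fab3 (f_g1cb O L))
  have hg1f := O.add4 (O.add4 (O.fre4 (f_g1fa O L)) (O.fab4 (f_g1fb O L)))
    (O.faa4 (f_g1fc O L))
  have hg2l := O.fre1 (f_g2la O L)
  have hg2q := O.fre2 (f_g2qa O L)
  have hg2c := O.add3 (O.fre3 (f_g2ca O L)) (O.fab3 (f_g2cb O L))
  have hg3l := O.fre1 (f_g3la O L)
  have hg3q := O.add2 (O.fre2 (f_g3qa O L)) (fab2 (f_g3qb O L))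
  have hg4l := O.fre1 (f_g4l O L)
  have heq := O.fre2 (f_eq O L)
  have hel := O.fre1 (f_el O L)
  exact
    { del := L.qdel
      cc := L.qcc
      g2h := L.qg2h
      aa := L.qaa
      H := f_H O L
      h0 := f_h0 O L
      hxa := O.add hx2.1 (O.sub (O.mul (f_z2 O L) L.qt11) (O.mul (f_z3 O L) L.qt12))
      hxb := O.add hx2.2 (O.add (O.mul (f_z2 O L) L.qt12) (O.mul (f_z3 O L) L.qt11))
      h3 := f_h3 O L
      laa := hla.1
      lab := hla.2
      ca := f_ca O L
      R4a := hR4.1
      R4b := hR4.2.1
      R4c := hR4.2.2.1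
      R4d := hR4.2.2.2.1
      R4e := hR4.2.2.2.2
      R5a := hR5.1
      R5b := hR5.2.1
      R5c := hR5.2.2.1
      R5d := hR5.2.2.2.1
      R5e := hR5.2.2.2.2.1
      R5f := hR5.2.2.2.2.2
      g1a := hg1.1
      g1b := hg1.2.1
      g1c' := hg1.2.2
      g1ca := hg1c.1
      g1cb := hg1c.2.1
      g1cc := hg1c.2.2.1
      g1cd := hg1c.2.2.2
      g1fa := hg1f.1
      g1fb := hg1f.2.1
      g1fc := hg1f.2.2.1
      g1fd := hg1f.2.2.2.1
      g1fe := hg1f.2.2.2.2
      g2k := f_g2k O L
      g2la := O.add hg2l.1 (f_g2lb1 O L)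
      g2lb := O.add hg2l.2 (f_g2lb2 O L)
      g2qa := O.add hg2q.1 (f_q1 O L)
      g2qb := O.add hg2q.2.1 (f_q2 O L)
      g2qc := O.add hg2q.2.2 (f_q3 O L)
      g2ca := hg2c.1
      g2cb := hg2c.2.1
      g2cc := hg2c.2.2.1
      g2cd := hg2c.2.2.2
      g3k := f_g3k O L
      g3la := O.add hg3l.1 (f_g3lb1 O L)
      g3lb := O.add hg3l.2 (f_g3lb2 O L)
      g3qa := hg3q.1
      g3qb := hg3q.2.1
      g3qc := hg3q.2.2
      g4k := f_g4k O L
      g4la := hg4l.1
      g4lb := hg4l.2
      g5k := f_g5k O L
      eqa := heq.1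
      eqb := heq.2.1
      eqc := heq.2.2
      ela := hel.1
      elb := hel.2
      ek := f_ek O L }


theorem gse (O : Ops x y z) (hpp : b.pp.Enc x y z (pp t)) (hf : b.f.Enc x y z (ph t))
    {E E1 : AF} {em : ℝ} (c8 : ℝ) (he : E.Enc x y z em) (he1 : E1.Enc x y z (1 - em)) :
    List.Forall₂ (fun (A : AF) (v : ℝ) => A.Enc x y z v) (mkGsA b E E1).toL (mkGs t em c8).toL := by
  have h2 : AF.Enc (E1 * b.f * (AF.one - E1 * b.pp) * hlf) x y z
      ((1 - em) * ph t * (1 - (1 - em) * pp t) / 2) := by
    apply congE
    · repeat' first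
        | with_reducible assumption
        | with_reducible exact one_enc
        | with_reducible exact hlf_enc
        | with_reducible exact c6_enc
        | with_reducible exact c24_enc
        | with_reducible exact c120_enc
        | with_reducible exact c720_enc
        | with_reducible exact c5040_enc
        | with_reducible apply O.sub
        | with_reducible apply O.mul
        | with_reducible apply O.smul
    · push_cast
      ring
  have h3 : AF.Enc (E1 * b.f * (AF.one - E1 * b.pp) * (AF.one - 2 • (E1 * b.pp)) * AF.cst 1666666667 0 1) x y z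
      ((1 - em) * ph t * (1 - (1 - em) * pp t) * (1 - 2 * ((1 - em) * pp t)) / 6) := by
    apply congE
    · repeat' first
        | with_reducible assumption
        | with_reducible exact one_enc
        | with_reducible exact hlf_enc
        | with_reducible exact c6_enc
        | with_reducible exact c24_enc
        | with_reducible exact c120_enc
        | with_reducible exact c720_enc
        | with_reducible exact c5040_enc
        | with_reducible apply O.sub
        | with_reducible apply O.mul
        | with_reducible apply O.smul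
    · push_cast
      ring
  have h4 : AF.Enc (E1 * b.f * (AF.one - E1 * b.pp) * (AF.one - (E1 * b.pp) * (6 • AF.one - 6 • (E1 * b.pp))) * AF.cst 416666667 0 1) x y z
      ((1 - em) * ph t * (1 - (1 - em) * pp t) * (1 - ((1 - em) * pp t) * (6 - 6 * ((1 - em) * pp t))) / 24) := by
    apply congE
    · repeat' first
        | with_reducible assumption
        | with_reducible exact one_enc
        | with_reducible exact hlf_enc
        | with_reducible exact c6_enc
        | with_reducible exact c24_enc
        | with_reducible exact c120_enc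
        | with_reducible exact c720_enc
        | with_reducible exact c5040_enc
        | with_reducible apply O.sub
        | with_reducible apply O.mul
        | with_reducible apply O.smul
    · push_cast
      ring
  have h5 : AF.Enc (E1 * b.f * (AF.one - E1 * b.pp) * (AF.one - (E1 * b.pp) * (14 • AF.one - (E1 * b.pp) * (36 • AF.one - 24 • (E1 * b.pp)))) * AF.cst 83333333 0 1) x y z
      ((1 - em) * ph t * (1 - (1 - em) * pp t) * (1 - ((1 - em) * pp t) * (14 - ((1 - em) * pp t) * (36 - 24 * ((1 - em) * pp t)))) / 120) := by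
    apply congE
    · repeat' first
        | with_reducible assumption
        | with_reducible exact one_enc
        | with_reducible exact hlf_enc
        | with_reducible exact c6_enc
        | with_reducible exact c24_enc
        | with_reducible exact c120_enc
        | with_reducible exact c720_enc
        | with_reducible exact c5040_enc
        | with_reducible apply O.sub
        | with_reducible apply O.mul
        | with_reducible apply O.smul
    · push_cast
      ring
  have h6 : AF.Enc (E1 * b.f * (AF.one - E1 * b.pp) * (AF.one - (E1 * b.pp) * (30 • AF.one - (E1 * b.pp) * (150 • AF.one - (E1 * b.pp) * (240 • AF.one - 120 • (E1 * b.pp)))))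
      * AF.cst 13888889 0 1) x y z
      ((1 - em) * ph t * (1 - (1 - em) * pp t) * (1 - ((1 - em) * pp t) * (30 - ((1 - em) * pp t) * (150 - ((1 - em) * pp t) * (240 - 120 * ((1 - em) * pp t))))) / 720) := by
    apply congE
    · repeat' first
        | with_reducible assumption
        | with_reducible exact one_enc
        | with_reducible exact hlf_enc
        | with_reducible exact c6_enc
        | with_reducible exact c24_enc
        | with_reducible exact c120_enc
        | with_reducible exact c720_enc
        | with_reducible exact c5040_enc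
        | with_reducible apply O.sub
        | with_reducible apply O.mul
        | with_reducible apply O.smul
    · push_cast
      ring
  have h7 : AF.Enc (E1 * b.f * (AF.one - E1 * b.pp) * (AF.one - (E1 * b.pp) * (62 • AF.one - (E1 * b.pp) * (540 • AF.one - (E1 * b.pp) * (1560 • AF.one
      - (E1 * b.pp) * (1800 • AF.one - 720 • (E1 * b.pp)))))) * AF.cst 1984127 0 1) x y z
      ((1 - em) * ph t * (1 - (1 - em) * pp t) * (1 - ((1 - em) * pp t) * (62 - ((1 - em) * pp t) * (540 - ((1 - em) * pp t) * (1560 - ((1 - em) * pp t) * (1800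
        - 720 * ((1 - em) * pp t)))))) / 5040) := by
    apply congE
    · repeat' first
        | with_reducible assumption
        | with_reducible exact one_enc
        | with_reducible exact hlf_enc
        | with_reducible exact c6_enc
        | with_reducible exact c24_enc
        | with_reducible exact c120_enc
        | with_reducible exact c720_enc
        | with_reducible exact c5040_enc
        | with_reducible apply O.sub
        | with_reducible apply O.mul
        | with_reducible apply O.smul
    · push_cast
      ring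
  exact .cons (O.neg (O.mul he hf)) (.cons h2 (.cons h3 (.cons h4 (.cons h5 (.cons h6
    (.cons h7 .nil))))))

theorem cfL {C : Cf AF} {R : Cf ℝ} (h : EncCf C x y z R) :
    List.Forall₂ (fun (A : AF) (v : ℝ) => A.Enc x y z v) C.toL R.toL := by
  exact
    .cons h.del (
    .cons h.cc (
    .cons h.g2h (
    .cons h.aa (
    .cons h.H (
    .cons h.h0 (
    .cons h.hxa (
    .cons h.hxb (
    .cons h.h3 (
    .cons h.laa (
    .cons h.lab (
    .cons h.ca (
    .cons h.R4a (
    .cons h.R4b (
    .cons h.R4c (
    .cons h.R4d (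
    .cons h.R4e (
    .cons h.R5a (
    .cons h.R5b (
    .cons h.R5c (
    .cons h.R5d (
    .cons h.R5e (
    .cons h.R5f (
    .cons h.g1a (
    .cons h.g1b (
    .cons h.g1c' (
    .cons h.g1ca (
    .cons h.g1cb (
    .cons h.g1cc (
    .cons h.g1cd (
    .cons h.g1fa (
    .cons h.g1fb (
    .cons h.g1fc (
    .cons h.g1fd (
    .cons h.g1fe (
    .cons h.g2k (
    .cons h.g2la (
    .cons h.g2lb (
    .cons h.g2qa (
    .cons h.g2qb (
    .cons h.g2qc (
    .cons h.g2ca (
    .cons h.g2cb (
    .cons h.g2cc (
    .cons h.g2cd (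
    .cons h.g3k (
    .cons h.g3la (
    .cons h.g3lb (
    .cons h.g3qa (
    .cons h.g3qb (
    .cons h.g3qc (
    .cons h.g4k (
    .cons h.g4la (
    .cons h.g4lb (
    .cons h.g5k (
    .cons h.eqa (
    .cons h.eqb (
    .cons h.eqc (
    .cons h.ela (
    .cons h.elb (
    .cons h.ek (
    .nil)))))))))))))))))))))))))))))))))))))))))))))))))))))))))))))

theorem mkc (hS : AfsStmt) (hA : MkaStmt) (hB : MkbStmt) : MkcStmt := by
  intro x y z hx hy hz b t Q P ht0 ht1 hb hP hok e e1 em he he1
  have O := ops hS hx hy hz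
  have L := lv hS hA hB hx hy hz ht0 ht1 hb hP hok
  have hl : List.Forall₂ (fun (A : AF) (v : ℝ) => A.Enc x y z v)
      [b.kap.remul b.lk, b.kap.remul (b.Sg 1),
        b.kt * ((b.kt * b.kn + b.kk.remul (b.Sg 2)) * hlf), b.kap.im,
        (b.kap * (b.lk - (⟨AF.one, AF.zer⟩ : CA))).im,
        b.kt * ((b.kt * b.kn * (b.f * b.f) - (b.kk * (b.dl 1 * b.dl 1)).remul (b.Sg 2)) * hlf)]
      [(kap t * lk t).re, (kap t * Sg t 1).re,
        kt t * ((kt t * kn t + (kap t ^ 2 * Sg t 2).re) / 2), (kap t).im,
        (kap t * (lk t - 1)).im,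
        kt t * ((kt t * kn t * ph t ^ 2 - (kap t ^ 2 * dl t 1 ^ 2 * Sg t 2).re) / 2)] :=
    .cons (f_rk O L) (.cons (f_s1 O L) (.cons (f_qq1 O L) (.cons (f_im O L) (.cons (f_il O L)
      (.cons (f_qq2 O L) .nil)))))
  exact List.rel_append (cfL (cfe O L))
    (List.rel_append (gse O L.qpp L.qf 0 zer_enc (congE one_enc (by norm_num)))
      (List.rel_append (gse O L.qpp L.qf 0 he he1) hl))

end Pool.Agent.Helper8.DL
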