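import Pool.Agent.Helper8.DL.Ops

/-!
Packet MKC, part two: the coefficients.
-/

set_option autoImplicit false
set_option linter.unusedTactic false
set_option linter.unreachableTactic false
set_option linter.unusedSectionVars false
set_option linter.unusedSimpArgs false

open Complex (I)

namespace Pool.Agent.Helper8.DL

open Pool.Agent.Helper30.DL

/-- The enclosures of all constants used in the coefficients. -/
structure Lv (x y z : ℝ) (b : BsA) (t : ℝ) (Q : PmA) (P : Pm) : Prop where
  qth : b.th.Enc x y z (th t)
  qpp : b.pp.Enc x y z (pp t)
  qdel : b.del.Enc x y z (del t)
  qcc : b.c.Enc x y z (cs t)
  qf : b.f.Enc x y z (ph t)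
  qkt : b.kt.Enc x y z (kt t)
  qg2h : b.g2h.Enc x y z (g2h t)
  qom : b.om.Enc x y z (om t)
  qik : b.ik.Enc x y z (ik t)
  qkap : b.kap.Enc x y z (kap t)
  qkn : b.kn.Enc x y z (kn t)
  qmu : b.mu.Enc x y z (mu t)
  qmuk : b.muk.Enc x y z (muk t)
  qlk : b.lk.Enc x y z (lk t)
  qlam : b.lam.Enc x y z (lam t)
  qe8c : b.e8.cj.Enc x y z (ex t (-8))
  qD1 : (b.Dm 1).Enc x y z (Dm t 1)
  qD2 : (b.Dm 2).Enc x y z (Dm t 2)
  qD3 : (b.Dm 3).Enc x y z (Dm t 3)
  qdl1 : (b.dl 1).Enc x y z (dl t 1)
  qdl2 : (b.dl 2).Enc x y z (dl t 2)
  qdl3 : (b.dl 3).Enc x y z (dl t 3)
  qdl4 : (b.dl 4).Enc x y z (dl t 4)
  qdl5 : (b.dl 5).Enc x y z (dl t 5)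
  qchh : b.chh.Enc x y z (chh t)
  qkk : b.kk.Enc x y z (kap t ^ 2)
  qal : (b.al Q).Enc x y z (al P t)
  qbe : (b.be Q).Enc x y z (be P t)
  qc30 : (b.c30 Q).Enc x y z (c30 P t)
  qc21 : (b.c21 Q).Enc x y z (c21 P t)
  qS1 : (b.Sg 1).Enc x y z (Sg t 1)
  qS2 : (b.Sg 2).Enc x y z (Sg t 2)
  qLg2 : (b.Lg 2).Enc x y z (Lg t 2)
  qL0 : b.L0.Enc x y z (L0 t)
  qkl : b.kl.Enc x y z (kl t)
  qk0 : b.k0.Enc x y z (k0 t)
  qam : (b.am Q).Enc x y z (am P t)
  qt11 : b.t11.Enc x y z (t11 t)
  qt12 : b.t12.Enc x y z (t12 t)
  qw1 : b.w1.Enc x y z (w1 t)
  qw2 : b.w2.Enc x y z (w2 t)
  qon : b.on.Enc x y z (on t)
  qo2 : b.o2.Enc x y z (om t ^ 2)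
  qo3 : b.o3.Enc x y z (om t ^ 3)
  qk2 : b.k2.Enc x y z (ik t ^ 2)
  qk3 : b.k3.Enc x y z (ik t ^ 3)
  qk4 : b.k4.Enc x y z (ik t ^ 4)
  qth2 : b.th2.Enc x y z (th t ^ 2)
  qth3 : b.th3.Enc x y z (th t ^ 3)
  qg00 : (b.mkG Q).g00.Enc x y z (mkG P t).g00
  qg01 : (b.mkG Q).g01.Enc x y z (mkG P t).g01
  qg02 : (b.mkG Q).g02.Enc x y z (mkG P t).g02
  qg03 : (b.mkG Q).g03.Enc x y z (mkG P t).g03
  qg11 : (b.mkG Q).g11.Enc x y z (mkG P t).g11
  qg12 : (b.mkG Q).g12.Enc x y z (mkG P t).g12
  qg13 : (b.mkG Q).g13.Enc x y z (mkG P t).g13
  qg22 : (b.mkG Q).g22.Enc x y z (mkG P t).g22
  qg23 : (b.mkG Q).g23.Enc x y z (mkG P t).g23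
  qg33 : (b.mkG Q).g33.Enc x y z (mkG P t).g33
  qc1h : Q.c1h.Enc x y z P.c1h
  qr1 : Q.r1.Enc x y z P.r1
  qaa : Q.A.Enc x y z P.A
  qc40 : Q.c40.Enc x y z P.c40
  qc31 : Q.c31.Enc x y z P.c31
  qc22 : Q.c22.Enc x y z P.c22
  qc50 : Q.c50.Enc x y z P.c50
  qc41 : Q.c41.Enc x y z P.c41
  qc32 : Q.c32.Enc x y z P.c32
  qnu0 : Q.nu0.Enc x y z P.nu0
  qnu1 : Q.nu1.Enc x y z P.nu1
  qnu2 : Q.nu2.Enc x y z P.nu2
  qnu3 : Q.nu3.Enc x y z P.nu3

theorem lv (hS : AfsStmt) (hA : MkaStmt) (hB : MkbStmt) {x y z : ℝ} (hx : |x| ≤ 1)
    (hy : |y| ≤ 1) (hz : |z| ≤ 1) {b : BsA} {t : ℝ} {Q : PmA} {P : Pm} (ht0 : 0 < t)
    (ht1 : t ≤ 449 / 2000) (hb : EncBs b x y z t) (hP : EncP Q P) (hok : okA Q b = true) :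
    Lv x y z b t Q P := by
  have O := ops hS hx hy hz
  obtain ⟨hth, hpp, hdel, hkt, hg2h, hexn, hexc, hsc, hjs, hom, hik, hiE, hkap, hkn, hmu, hmuk,
    hlk, hlam, hDm, hdl, hchh, hkk, hal, hbe, hc30, hc21, hSLM, hL0, hM0, hGg, hkl, hk0, ham,
    ht11, ht12, hw1, hw2, hon, ho2, ho3, hk2, hk3, hk4⟩ :=
    hA x y z hx hy hz b t Q P ht0 ht1 hb hP hok
  have hG := (hB x y z hx hy hz b t Q P ht0 ht1 hb hP hok).1
  exact
    { qth := hth, qpp := hpp, qdel := hdel, qcc := hb.c, qf := hb.f, qkt := hkt, qg2h := hg2h,
      qom := hom, qik := hik, qkap := hkap, qkn := hkn, qmu := hmu, qmuk := hmuk, qlk := hlk,
      qlam := hlam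
      qe8c := hexc 8 (Or.inr rfl)
      qD1 := hDm 1 le_rfl (by norm_num)
      qD2 := hDm 2 (by norm_num) (by norm_num)
      qD3 := hDm 3 (by norm_num) (by norm_num)
      qdl1 := hdl 1 (by norm_num) (by norm_num)
      qdl2 := hdl 2 (by norm_num) (by norm_num)
      qdl3 := hdl 3 (by norm_num) (by norm_num)
      qdl4 := hdl 4 (by norm_num) (by norm_num)
      qdl5 := hdl 5 (by norm_num) (by norm_num)
      qchh := hchh, qkk := hkk, qal := hal, qbe := hbe, qc30 := hc30, qc21 := hc21
      qS1 := (hSLM 1 le_rfl (by norm_num)).1
      qS2 := (hSLM 2 (by norm_num) (by norm_num)).1
      qLg2 := (hSLM 2 (by norm_num) (by norm_num)).2.1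
      qL0 := hL0, qkl := hkl, qk0 := hk0, qam := ham, qt11 := ht11, qt12 := ht12, qw1 := hw1,
      qw2 := hw2, qon := hon, qo2 := ho2, qo3 := ho3, qk2 := hk2, qk3 := hk3, qk4 := hk4
      qth2 := congE (O.mul hth hth) (by ring)
      qth3 := congE (O.mul (O.mul hth hth) hth) (by ring)
      qg00 := hG.g00, qg01 := hG.g01, qg02 := hG.g02, qg03 := hG.g03, qg11 := hG.g11,
      qg12 := hG.g12, qg13 := hG.g13, qg22 := hG.g22, qg23 := hG.g23, qg33 := hG.g33
      qc1h := hP.c1h x y z
      qr1 := hP.r1 x y z
      qaa := hP.aa x y z
      qc40 := hP.c40 x y z
      qc31 := hP.c31 x y z
      qc22 := hP.c22 x y z
      qc50 := hP.c50 x y z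
      qc41 := hP.c41 x y z
      qc32 := hP.c32 x y z
      qnu0 := hP.nu0 x y z
      qnu1 := hP.nu1 x y z
      qnu2 := hP.nu2 x y z
      qnu3 := hP.nu3 x y z }

variable {x y z : ℝ} {b : BsA} {t : ℝ} {Q : PmA} {P : Pm}

theorem f_z1 (O : Ops x y z) (L : Lv x y z b t Q P) :
    AF.Enc (2 • (b.mkG Q).g01 + Q.nu1.remul b.lk) x y z
      (2 * (mkG P t).g01 + (P.nu1 * lk t).re) := by
  cases L
  apply congE
  · repeat' first
      | with_reducible assumption
      | with_reducible exact one_enc
      | with_reducible exact zer_enc
      | with_reducible exact hlf_enc
      | with_reducible exact cone
      | with_reducible apply O.add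
      | with_reducible apply O.sub
      | with_reducible apply O.mul
      | with_reducible apply O.neg
      | with_reducible apply O.smul
      | with_reducible apply O.cadd
      | with_reducible apply O.csub
      | with_reducible apply O.cmul
      | with_reducible apply O.cneg
      | with_reducible apply O.csmul
      | with_reducible apply O.ccj
      | with_reducible apply O.cscl
      | with_reducible apply O.cmulI
      | with_reducible apply cofR
      | with_reducible apply O.remul
      | with_reducible apply cre
      | with_reducible apply cim
  · push_cast
    ring

theorem f_z2 (O : Ops x y z) (L : Lv x y z b t Q P) :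
    AF.Enc (2 • (b.mkG Q).g02 + Q.nu2.remul b.lk) x y z
      (2 * (mkG P t).g02 + (P.nu2 * lk t).re) := by
  cases L
  apply congE
  · repeat' first
      | with_reducible assumption
      | with_reducible exact one_enc
      | with_reducible exact zer_enc
      | with_reducible exact hlf_enc
      | with_reducible exact cone
      | with_reducible apply O.add
      | with_reducible apply O.sub
      | with_reducible apply O.mul
      | with_reducible apply O.neg
      | with_reducible apply O.smul
      | with_reducible apply O.cadd
      | with_reducible apply O.csub
      | with_reducible apply O.cmul
      | with_reducible apply O.cneg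
      | with_reducible apply O.csmul
      | with_reducible apply O.ccj
      | with_reducible apply O.cscl
      | with_reducible apply O.cmulI
      | with_reducible apply cofR
      | with_reducible apply O.remul
      | with_reducible apply cre
      | with_reducible apply cim
  · push_cast
    ring

theorem f_z3 (O : Ops x y z) (L : Lv x y z b t Q P) :
    AF.Enc (2 • (b.mkG Q).g03 + Q.nu3.remul b.lk) x y z
      (2 * (mkG P t).g03 + (P.nu3 * lk t).re) := by
  cases L
  apply congE
  · repeat' first
      | with_reducible assumption
      | with_reducible exact one_enc
      | with_reducible exact zer_enc
      | with_reducible exact hlf_enc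
      | with_reducible exact cone
      | with_reducible apply O.add
      | with_reducible apply O.sub
      | with_reducible apply O.mul
      | with_reducible apply O.neg
      | with_reducible apply O.smul
      | with_reducible apply O.cadd
      | with_reducible apply O.csub
      | with_reducible apply O.cmul
      | with_reducible apply O.cneg
      | with_reducible apply O.csmul
      | with_reducible apply O.ccj
      | with_reducible apply O.cscl
      | with_reducible apply O.cmulI
      | with_reducible apply cofR
      | with_reducible apply O.remul
      | with_reducible apply cre
      | with_reducible apply cim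
  · push_cast
    ring

theorem f_H (O : Ops x y z) (L : Lv x y z b t Q P) :
    AF.Enc (Q.c1h - Q.r1 * (b.kt * (b.f * b.f)) + (b.mkG Q).g00 + Q.nu0.remul b.lk) x y z
      (P.c1h - P.r1 * (kt t * ph t ^ 2) + (mkG P t).g00 + (P.nu0 * lk t).re) := by
  cases L
  apply congE
  · repeat' first
      | with_reducible assumption
      | with_reducible exact one_enc
      | with_reducible exact zer_enc
      | with_reducible exact hlf_enc
      | with_reducible exact cone
      | with_reducible apply O.add
      | with_reducible apply O.sub
      | with_reducible apply O.mul
      | with_reducible apply O.neg
      | with_reducible apply O.smul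
      | with_reducible apply O.cadd
      | with_reducible apply O.csub
      | with_reducible apply O.cmul
      | with_reducible apply O.cneg
      | with_reducible apply O.csmul
      | with_reducible apply O.ccj
      | with_reducible apply O.cscl
      | with_reducible apply O.cmulI
      | with_reducible apply cofR
      | with_reducible apply O.remul
      | with_reducible apply cre
      | with_reducible apply cim
  · push_cast
    ring

theorem f_h0 (O : Ops x y z) (L : Lv x y z b t Q P) :
    AF.Enc (-(2 • (Q.c1h * b.kap.remul (b.Sg 1))) - 2 • (Q.r1 * (b.kt * b.f * b.k0)) + (2 • (b.mkG Q).g01 + Q.nu1.remul b.lk)) x y z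
      (-(2 * (P.c1h * (kap t * Sg t 1).re)) - 2 * (P.r1 * (kt t * ph t * k0 t)) + (2 * (mkG P t).g01 + (P.nu1 * lk t).re)) := by
  cases L
  apply congE
  · repeat' first
      | with_reducible assumption
      | with_reducible exact one_enc
      | with_reducible exact zer_enc
      | with_reducible exact hlf_enc
      | with_reducible exact cone
      | with_reducible apply O.add
      | with_reducible apply O.sub
      | with_reducible apply O.mul
      | with_reducible apply O.neg
      | with_reducible apply O.smul
      | with_reducible apply O.cadd
      | with_reducible apply O.csub
      | with_reducible apply O.cmul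
      | with_reducible apply O.cneg
      | with_reducible apply O.csmul
      | with_reducible apply O.ccj
      | with_reducible apply O.cscl
      | with_reducible apply O.cmulI
      | with_reducible apply cofR
      | with_reducible apply O.remul
      | with_reducible apply cre
      | with_reducible apply cim
  · push_cast
    ring

theorem f_x2 (O : Ops x y z) (L : Lv x y z b t Q P) :
    CA.Enc (2 • ((CA.ofR (b.be Q) + b.am Q * b.muk) * b.om)) x y z
      (((2 : ℝ) : ℂ) * (((be P t : ℂ) + am P t * muk t) * om t)) := by
  cases L
  apply congC
  · repeat' first
      | with_reducible assumption
      | with_reducible exact one_enc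
      | with_reducible exact zer_enc
      | with_reducible exact hlf_enc
      | with_reducible exact cone
      | with_reducible apply O.add
      | with_reducible apply O.sub
      | with_reducible apply O.mul
      | with_reducible apply O.neg
      | with_reducible apply O.smul
      | with_reducible apply O.cadd
      | with_reducible apply O.csub
      | with_reducible apply O.cmul
      | with_reducible apply O.cneg
      | with_reducible apply O.csmul
      | with_reducible apply O.ccj
      | with_reducible apply O.cscl
      | with_reducible apply O.cmulI
      | with_reducible apply cofR
      | with_reducible apply O.remul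
      | with_reducible apply cre
      | with_reducible apply cim
  · push_cast
    ring

theorem f_h3 (O : Ops x y z) (L : Lv x y z b t Q P) :
    AF.Enc (-(b.th * (b.be Q + (b.am Q).remul b.muk)) - b.th * (2 • (b.mkG Q).g02 + Q.nu2.remul b.lk)) x y z
      (-(th t * (be P t + (am P t * muk t).re)) - th t * (2 * (mkG P t).g02 + (P.nu2 * lk t).re)) := by
  cases L
  apply congE
  · repeat' first
      | with_reducible assumption
      | with_reducible exact one_enc
      | with_reducible exact zer_enc
      | with_reducible exact hlf_enc
      | with_reducible exact cone
      | with_reducible apply O.add
      | with_reducible apply O.sub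
      | with_reducible apply O.mul
      | with_reducible apply O.neg
      | with_reducible apply O.smul
      | with_reducible apply O.cadd
      | with_reducible apply O.csub
      | with_reducible apply O.cmul
      | with_reducible apply O.cneg
      | with_reducible apply O.csmul
      | with_reducible apply O.ccj
      | with_reducible apply O.cscl
      | with_reducible apply O.cmulI
      | with_reducible apply cofR
      | with_reducible apply O.remul
      | with_reducible apply cre
      | with_reducible apply cim
  · push_cast
    ring

theorem f_la (O : Ops x y z) (L : Lv x y z b t Q P) :
    CA.Enc (-(2 • CA.scl b.th ((b.al Q * b.chh + CA.ofR (b.be Q * b.f)) * b.om))) x y z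
      (((-(2 * th t) : ℝ) : ℂ) * ((al P t * chh t + ((be P t * ph t : ℝ) : ℂ)) * om t)) := by
  cases L
  apply congC
  · repeat' first
      | with_reducible assumption
      | with_reducible exact one_enc
      | with_reducible exact zer_enc
      | with_reducible exact hlf_enc
      | with_reducible exact cone
      | with_reducible apply O.add
      | with_reducible apply O.sub
      | with_reducible apply O.mul
      | with_reducible apply O.neg
      | with_reducible apply O.smul
      | with_reducible apply O.cadd
      | with_reducible apply O.csub
      | with_reducible apply O.cmul
      | with_reducible apply O.cneg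
      | with_reducible apply O.csmul
      | with_reducible apply O.ccj
      | with_reducible apply O.cscl
      | with_reducible apply O.cmulI
      | with_reducible apply cofR
      | with_reducible apply O.remul
      | with_reducible apply cre
      | with_reducible apply cim
  · push_cast
    ring

theorem f_ca (O : Ops x y z) (L : Lv x y z b t Q P) :
    AF.Enc (b.th2 * ((b.al Q).remul b.chh + b.be Q * b.f)) x y z
      (th t ^ 2 * ((al P t * chh t).re + be P t * ph t)) := by
  cases L
  apply congE
  · repeat' first
      | with_reducible assumption
      | with_reducible exact one_enc
      | with_reducible exact zer_enc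
      | with_reducible exact hlf_enc
      | with_reducible exact cone
      | with_reducible apply O.add
      | with_reducible apply O.sub
      | with_reducible apply O.mul
      | with_reducible apply O.neg
      | with_reducible apply O.smul
      | with_reducible apply O.cadd
      | with_reducible apply O.csub
      | with_reducible apply O.cmul
      | with_reducible apply O.cneg
      | with_reducible apply O.csmul
      | with_reducible apply O.ccj
      | with_reducible apply O.cscl
      | with_reducible apply O.cmulI
      | with_reducible apply cofR
      | with_reducible apply O.remul
      | with_reducible apply cre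
      | with_reducible apply cim
  · push_cast
    ring

theorem f_R4a (O : Ops x y z) (L : Lv x y z b t Q P) :
    CA.Enc (Q.c40 * b.dl 4 * b.k4) x y z
      (P.c40 * dl t 4 * ik t ^ 4) := by
  cases L
  apply congC
  · repeat' first
      | with_reducible assumption
      | with_reducible exact one_enc
      | with_reducible exact zer_enc
      | with_reducible exact hlf_enc
      | with_reducible exact cone
      | with_reducible apply O.add
      | with_reducible apply O.sub
      | with_reducible apply O.mul
      | with_reducible apply O.neg
      | with_reducible apply O.smul
      | with_reducible apply O.cadd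
      | with_reducible apply O.csub
      | with_reducible apply O.cmul
      | with_reducible apply O.cneg
      | with_reducible apply O.csmul
      | with_reducible apply O.ccj
      | with_reducible apply O.cscl
      | with_reducible apply O.cmulI
      | with_reducible apply cofR
      | with_reducible apply O.remul
      | with_reducible apply cre
      | with_reducible apply cim
  · push_cast
    ring

theorem f_R4b (O : Ops x y z) (L : Lv x y z b t Q P) :
    CA.Enc (Q.c31 * b.dl 2 * (b.k3 * b.ik.cj)) x y z
      (P.c31 * dl t 2 * (ik t ^ 3 * cj (ik t))) := by
  cases L
  apply congC
  · repeat' first
      | with_reducible assumption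
      | with_reducible exact one_enc
      | with_reducible exact zer_enc
      | with_reducible exact hlf_enc
      | with_reducible exact cone
      | with_reducible apply O.add
      | with_reducible apply O.sub
      | with_reducible apply O.mul
      | with_reducible apply O.neg
      | with_reducible apply O.smul
      | with_reducible apply O.cadd
      | with_reducible apply O.csub
      | with_reducible apply O.cmul
      | with_reducible apply O.cneg
      | with_reducible apply O.csmul
      | with_reducible apply O.ccj
      | with_reducible apply O.cscl
      | with_reducible apply O.cmulI
      | with_reducible apply cofR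
      | with_reducible apply O.remul
      | with_reducible apply cre
      | with_reducible apply cim
  · push_cast
    ring

theorem f_R5a (O : Ops x y z) (L : Lv x y z b t Q P) :
    CA.Enc (Q.c50 * b.dl 5 * (b.k4 * b.ik)) x y z
      (P.c50 * dl t 5 * ik t ^ 5) := by
  cases L
  apply congC
  · repeat' first
      | with_reducible assumption
      | with_reducible exact one_enc
      | with_reducible exact zer_enc
      | with_reducible exact hlf_enc
      | with_reducible exact cone
      | with_reducible apply O.add
      | with_reducible apply O.sub
      | with_reducible apply O.mul
      | with_reducible apply O.neg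
      | with_reducible apply O.smul
      | with_reducible apply O.cadd
      | with_reducible apply O.csub
      | with_reducible apply O.cmul
      | with_reducible apply O.cneg
      | with_reducible apply O.csmul
      | with_reducible apply O.ccj
      | with_reducible apply O.cscl
      | with_reducible apply O.cmulI
      | with_reducible apply cofR
      | with_reducible apply O.remul
      | with_reducible apply cre
      | with_reducible apply cim
  · push_cast
    ring

theorem f_R5b (O : Ops x y z) (L : Lv x y z b t Q P) :
    CA.Enc (Q.c41 * b.dl 3 * (b.k4 * b.ik.cj)) x y z
      (P.c41 * dl t 3 * (ik t ^ 4 * cj (ik t))) := by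
  cases L
  apply congC
  · repeat' first
      | with_reducible assumption
      | with_reducible exact one_enc
      | with_reducible exact zer_enc
      | with_reducible exact hlf_enc
      | with_reducible exact cone
      | with_reducible apply O.add
      | with_reducible apply O.sub
      | with_reducible apply O.mul
      | with_reducible apply O.neg
      | with_reducible apply O.smul
      | with_reducible apply O.cadd
      | with_reducible apply O.csub
      | with_reducible apply O.cmul
      | with_reducible apply O.cneg
      | with_reducible apply O.csmul
      | with_reducible apply O.ccj
      | with_reducible apply O.cscl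
      | with_reducible apply O.cmulI
      | with_reducible apply cofR
      | with_reducible apply O.remul
      | with_reducible apply cre
      | with_reducible apply cim
  · push_cast
    ring

theorem f_R5c (O : Ops x y z) (L : Lv x y z b t Q P) :
    CA.Enc (Q.c32 * b.dl 1 * (b.k3 * b.k2.cj)) x y z
      (P.c32 * dl t 1 * (ik t ^ 3 * cj (ik t) ^ 2)) := by
  cases L
  apply congC
  · repeat' first
      | with_reducible assumption
      | with_reducible exact one_enc
      | with_reducible exact zer_enc
      | with_reducible exact hlf_enc
      | with_reducible exact cone
      | with_reducible apply O.add
      | with_reducible apply O.sub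
      | with_reducible apply O.mul
      | with_reducible apply O.neg
      | with_reducible apply O.smul
      | with_reducible apply O.cadd
      | with_reducible apply O.csub
      | with_reducible apply O.cmul
      | with_reducible apply O.cneg
      | with_reducible apply O.csmul
      | with_reducible apply O.ccj
      | with_reducible apply O.cscl
      | with_reducible apply O.cmulI
      | with_reducible apply cofR
      | with_reducible apply O.remul
      | with_reducible apply cre
      | with_reducible apply cim
  · simp only [cj, map_pow]

theorem f_g1a (O : Ops x y z) (L : Lv x y z b t Q P) :
    CA.Enc ((3 • b.c30 Q + b.c21 Q + b.al Q) * b.o2 + 2 • (b.am Q * (b.om * b.w1)) + CA.scl (b.be Q) (b.om * b.lk)) x y z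
      ((3 * c30 P t + c21 P t + al P t) * om t ^ 2 + 2 * (am P t * (om t * w1 t)) + (be P t : ℂ) * (om t * lk t)) := by
  cases L
  apply congC
  · repeat' first
      | with_reducible assumption
      | with_reducible exact one_enc
      | with_reducible exact zer_enc
      | with_reducible exact hlf_enc
      | with_reducible exact cone
      | with_reducible apply O.add
      | with_reducible apply O.sub
      | with_reducible apply O.mul
      | with_reducible apply O.neg
      | with_reducible apply O.smul
      | with_reducible apply O.cadd
      | with_reducible apply O.csub
      | with_reducible apply O.cmul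
      | with_reducible apply O.cneg
      | with_reducible apply O.csmul
      | with_reducible apply O.ccj
      | with_reducible apply O.cscl
      | with_reducible apply O.cmulI
      | with_reducible apply cofR
      | with_reducible apply O.remul
      | with_reducible apply cre
      | with_reducible apply cim
  · push_cast
    ring

theorem f_g1b (O : Ops x y z) (L : Lv x y z b t Q P) :
    AF.Enc (2 • ((b.c21 Q).re * b.on) + b.be Q * b.on + (2 • (b.am Q * (b.om * b.w2))).re + b.be Q * b.om.remul b.lk.cj) x y z
      (2 * ((c21 P t).re * on t) + be P t * on t + (2 * (am P t * (om t * w2 t))).re + be P t * (om t * cj (lk t)).re) := by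
  cases L
  apply congE
  · repeat' first
      | with_reducible assumption
      | with_reducible exact one_enc
      | with_reducible exact zer_enc
      | with_reducible exact hlf_enc
      | with_reducible exact cone
      | with_reducible apply O.add
      | with_reducible apply O.sub
      | with_reducible apply O.mul
      | with_reducible apply O.neg
      | with_reducible apply O.smul
      | with_reducible apply O.cadd
      | with_reducible apply O.csub
      | with_reducible apply O.cmul
      | with_reducible apply O.cneg
      | with_reducible apply O.csmul
      | with_reducible apply O.ccj
      | with_reducible apply O.cscl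
      | with_reducible apply O.cmulI
      | with_reducible apply cofR
      | with_reducible apply O.remul
      | with_reducible apply cre
      | with_reducible apply cim
  · simp only [Nat.cast_ofNat]

theorem f_g1ca (O : Ops x y z) (L : Lv x y z b t Q P) :
    CA.Enc ((4 • Q.c40 + Q.c31) * b.o3) x y z
      ((4 * P.c40 + P.c31) * om t ^ 3) := by
  cases L
  apply congC
  · repeat' first
      | with_reducible assumption
      | with_reducible exact one_enc
      | with_reducible exact zer_enc
      | with_reducible exact hlf_enc
      | with_reducible exact cone
      | with_reducible apply O.add
      | with_reducible apply O.sub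
      | with_reducible apply O.mul
      | with_reducible apply O.neg
      | with_reducible apply O.smul
      | with_reducible apply O.cadd
      | with_reducible apply O.csub
      | with_reducible apply O.cmul
      | with_reducible apply O.cneg
      | with_reducible apply O.csmul
      | with_reducible apply O.ccj
      | with_reducible apply O.cscl
      | with_reducible apply O.cmulI
      | with_reducible apply cofR
      | with_reducible apply O.remul
      | with_reducible apply cre
      | with_reducible apply cim
  · push_cast
    ring

theorem f_g1cb (O : Ops x y z) (L : Lv x y z b t Q P) :
    CA.Enc ((3 • Q.c31 + CA.ofR (4 • Q.c22)) * (b.o2 * b.om.cj)) x y z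
      ((3 * P.c31 + ((4 * P.c22 : ℝ) : ℂ)) * (om t ^ 2 * cj (om t))) := by
  cases L
  apply congC
  · repeat' first
      | with_reducible assumption
      | with_reducible exact one_enc
      | with_reducible exact zer_enc
      | with_reducible exact hlf_enc
      | with_reducible exact cone
      | with_reducible apply O.add
      | with_reducible apply O.sub
      | with_reducible apply O.mul
      | with_reducible apply O.neg
      | with_reducible apply O.smul
      | with_reducible apply O.cadd
      | with_reducible apply O.csub
      | with_reducible apply O.cmul
      | with_reducible apply O.cneg
      | with_reducible apply O.csmul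
      | with_reducible apply O.ccj
      | with_reducible apply O.cscl
      | with_reducible apply O.cmulI
      | with_reducible apply cofR
      | with_reducible apply O.remul
      | with_reducible apply cre
      | with_reducible apply cim
  · push_cast
    ring

theorem f_g1fa (O : Ops x y z) (L : Lv x y z b t Q P) :
    CA.Enc ((5 • Q.c50 + Q.c41) * (b.o2 * b.o2)) x y z
      ((5 * P.c50 + P.c41) * om t ^ 4) := by
  cases L
  apply congC
  · repeat' first
      | with_reducible assumption
      | with_reducible exact one_enc
      | with_reducible exact zer_enc
      | with_reducible exact hlf_enc
      | with_reducible exact cone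
      | with_reducible apply O.add
      | with_reducible apply O.sub
      | with_reducible apply O.mul
      | with_reducible apply O.neg
      | with_reducible apply O.smul
      | with_reducible apply O.cadd
      | with_reducible apply O.csub
      | with_reducible apply O.cmul
      | with_reducible apply O.cneg
      | with_reducible apply O.csmul
      | with_reducible apply O.ccj
      | with_reducible apply O.cscl
      | with_reducible apply O.cmulI
      | with_reducible apply cofR
      | with_reducible apply O.remul
      | with_reducible apply cre
      | with_reducible apply cim
  · push_cast
    ring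

theorem f_g1fb (O : Ops x y z) (L : Lv x y z b t Q P) :
    CA.Enc ((4 • Q.c41 + 2 • Q.c32) * (b.o3 * b.om.cj)) x y z
      ((4 * P.c41 + 2 * P.c32) * (om t ^ 3 * cj (om t))) := by
  cases L
  apply congC
  · repeat' first
      | with_reducible assumption
      | with_reducible exact one_enc
      | with_reducible exact zer_enc
      | with_reducible exact hlf_enc
      | with_reducible exact cone
      | with_reducible apply O.add
      | with_reducible apply O.sub
      | with_reducible apply O.mul
      | with_reducible apply O.neg
      | with_reducible apply O.smul
      | with_reducible apply O.cadd
      | with_reducible apply O.csub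
      | with_reducible apply O.cmul
      | with_reducible apply O.cneg
      | with_reducible apply O.csmul
      | with_reducible apply O.ccj
      | with_reducible apply O.cscl
      | with_reducible apply O.cmulI
      | with_reducible apply cofR
      | with_reducible apply O.remul
      | with_reducible apply cre
      | with_reducible apply cim
  · push_cast
    ring

theorem f_g1fc (O : Ops x y z) (L : Lv x y z b t Q P) :
    AF.Enc (3 • (Q.c32.re * (b.on * b.on))) x y z
      (3 * (P.c32.re * on t ^ 2)) := by
  cases L
  apply congE
  · repeat' first
      | with_reducible assumption
      | with_reducible exact one_enc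
      | with_reducible exact zer_enc
      | with_reducible exact hlf_enc
      | with_reducible exact cone
      | with_reducible apply O.add
      | with_reducible apply O.sub
      | with_reducible apply O.mul
      | with_reducible apply O.neg
      | with_reducible apply O.smul
      | with_reducible apply O.cadd
      | with_reducible apply O.csub
      | with_reducible apply O.cmul
      | with_reducible apply O.cneg
      | with_reducible apply O.csmul
      | with_reducible apply O.ccj
      | with_reducible apply O.cscl
      | with_reducible apply O.cmulI
      | with_reducible apply cofR
      | with_reducible apply O.remul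
      | with_reducible apply cre
      | with_reducible apply cim
  · push_cast
    ring

theorem f_g2k (O : Ops x y z) (L : Lv x y z b t Q P) :
    AF.Enc (-b.th - (Q.c1h * (b.th * ((b.kt * b.kn + b.kk.remul (b.Sg 2)) * hlf))
        + Q.r1 * (b.kt * (b.k0 * b.k0))
        + Q.r1 * (b.f * b.f * (b.th * ((b.kn * b.L0
          + (b.kk * b.e8.cj).remul (b.Lg 2).cj) * hlf)))) + (b.mkG Q).g11) x y z
      (-th t - (P.c1h * (th t * ((kt t * kn t + (kap t ^ 2 * Sg t 2).re) / 2))
        + P.r1 * (kt t * k0 t ^ 2)
        + P.r1 * (ph t ^ 2 * (th t * ((kn t * L0 t
          + (kap t ^ 2 * ex t (-8) * cj (Lg t 2)).re) / 2)))) + (mkG P t).g11) := by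
  cases L
  apply congE
  · repeat' first
      | with_reducible assumption
      | with_reducible exact one_enc
      | with_reducible exact zer_enc
      | with_reducible exact hlf_enc
      | with_reducible exact cone
      | with_reducible apply O.add
      | with_reducible apply O.sub
      | with_reducible apply O.mul
      | with_reducible apply O.neg
      | with_reducible apply O.smul
      | with_reducible apply O.cadd
      | with_reducible apply O.csub
      | with_reducible apply O.cmul
      | with_reducible apply O.cneg
      | with_reducible apply O.csmul
      | with_reducible apply O.ccj
      | with_reducible apply O.cscl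
      | with_reducible apply O.cmulI
      | with_reducible apply cofR
      | with_reducible apply O.remul
      | with_reducible apply cre
      | with_reducible apply cim
  · push_cast
    ring

theorem f_g2la (O : Ops x y z) (L : Lv x y z b t Q P) :
    CA.Enc (-CA.scl b.th ((3 • b.c30 Q + 2 • b.c21 Q + (b.c21 Q).cj
          + 2 • (b.al Q + CA.ofR (b.be Q))) * b.om
        + b.am Q * b.w1 + (b.am Q * b.w2).cj + CA.scl (b.be Q) b.lk)) x y z
      (-((th t : ℂ) * ((3 * c30 P t + 2 * c21 P t + cj (c21 P t)
          + 2 * (al P t + be P t)) * om t
        + am P t * w1 t + cj (am P t * w2 t) + (be P t : ℂ) * lk t))) := by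
  cases L
  apply congC
  · repeat' first
      | with_reducible assumption
      | with_reducible exact one_enc
      | with_reducible exact zer_enc
      | with_reducible exact hlf_enc
      | with_reducible exact cone
      | with_reducible apply O.add
      | with_reducible apply O.sub
      | with_reducible apply O.mul
      | with_reducible apply O.neg
      | with_reducible apply O.smul
      | with_reducible apply O.cadd
      | with_reducible apply O.csub
      | with_reducible apply O.cmul
      | with_reducible apply O.cneg
      | with_reducible apply O.csmul
      | with_reducible apply O.ccj
      | with_reducible apply O.cscl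
      | with_reducible apply O.cmulI
      | with_reducible apply cofR
      | with_reducible apply O.remul
      | with_reducible apply cre
      | with_reducible apply cim
  · push_cast
    ring

theorem f_g2lb1 (O : Ops x y z) (L : Lv x y z b t Q P) :
    AF.Enc (2 • ((b.mkG Q).g12 * b.t11 - (b.mkG Q).g13 * b.t12)) x y z
      (2 * ((mkG P t).g12 * t11 t - (mkG P t).g13 * t12 t)) := by
  cases L
  apply congE
  · repeat' first
      | with_reducible assumption
      | with_reducible exact one_enc
      | with_reducible exact zer_enc
      | with_reducible exact hlf_enc
      | with_reducible exact cone
      | with_reducible apply O.add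
      | with_reducible apply O.sub
      | with_reducible apply O.mul
      | with_reducible apply O.neg
      | with_reducible apply O.smul
      | with_reducible apply O.cadd
      | with_reducible apply O.csub
      | with_reducible apply O.cmul
      | with_reducible apply O.cneg
      | with_reducible apply O.csmul
      | with_reducible apply O.ccj
      | with_reducible apply O.cscl
      | with_reducible apply O.cmulI
      | with_reducible apply cofR
      | with_reducible apply O.remul
      | with_reducible apply cre
      | with_reducible apply cim
  · push_cast
    ring

theorem f_g2lb2 (O : Ops x y z) (L : Lv x y z b t Q P) :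
    AF.Enc (2 • ((b.mkG Q).g12 * b.t12 + (b.mkG Q).g13 * b.t11)) x y z
      (2 * ((mkG P t).g12 * t12 t + (mkG P t).g13 * t11 t)) := by
  cases L
  apply congE
  · repeat' first
      | with_reducible assumption
      | with_reducible exact one_enc
      | with_reducible exact zer_enc
      | with_reducible exact hlf_enc
      | with_reducible exact cone
      | with_reducible apply O.add
      | with_reducible apply O.sub
      | with_reducible apply O.mul
      | with_reducible apply O.neg
      | with_reducible apply O.smul
      | with_reducible apply O.cadd
      | with_reducible apply O.csub
      | with_reducible apply O.cmul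
      | with_reducible apply O.cneg
      | with_reducible apply O.csmul
      | with_reducible apply O.ccj
      | with_reducible apply O.cscl
      | with_reducible apply O.cmulI
      | with_reducible apply cofR
      | with_reducible apply O.remul
      | with_reducible apply cre
      | with_reducible apply cim
  · push_cast
    ring

theorem f_g2qa (O : Ops x y z) (L : Lv x y z b t Q P) :
    CA.Enc (-CA.scl b.th ((6 • Q.c40 + 3 • Q.c31 + CA.ofR (2 • Q.c22)) * b.o2)) x y z
      (((-th t : ℝ) : ℂ) * ((6 * P.c40 + 3 * P.c31 + ((2 * P.c22 : ℝ) : ℂ)) * om t ^ 2)) := by
  cases L
  apply congC
  · repeat' first
      | with_reducible assumption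
      | with_reducible exact one_enc
      | with_reducible exact zer_enc
      | with_reducible exact hlf_enc
      | with_reducible exact cone
      | with_reducible apply O.add
      | with_reducible apply O.sub
      | with_reducible apply O.mul
      | with_reducible apply O.neg
      | with_reducible apply O.smul
      | with_reducible apply O.cadd
      | with_reducible apply O.csub
      | with_reducible apply O.cmul
      | with_reducible apply O.cneg
      | with_reducible apply O.csmul
      | with_reducible apply O.ccj
      | with_reducible apply O.cscl
      | with_reducible apply O.cmulI
      | with_reducible apply cofR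
      | with_reducible apply O.remul
      | with_reducible apply cre
      | with_reducible apply cim
  · push_cast
    ring

theorem f_q1 (O : Ops x y z) (L : Lv x y z b t Q P) :
    AF.Enc (-(b.th * ((3 • Q.c31.re + 4 • Q.c22) * b.on)) + ((b.mkG Q).g22 * (b.t11 * b.t11) - 2 • ((b.mkG Q).g23 * (b.t11 * b.t12)) + (b.mkG Q).g33 * (b.t12 * b.t12))) x y z
      (-(th t * ((3 * P.c31.re + 4 * P.c22) * on t)) + ((mkG P t).g22 * t11 t ^ 2 - 2 * ((mkG P t).g23 * (t11 t * t12 t)) + (mkG P t).g33 * t12 t ^ 2)) := by
  cases L
  apply congE
  · repeat' first
      | with_reducible assumption
      | with_reducible exact one_enc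
      | with_reducible exact zer_enc
      | with_reducible exact hlf_enc
      | with_reducible exact cone
      | with_reducible apply O.add
      | with_reducible apply O.sub
      | with_reducible apply O.mul
      | with_reducible apply O.neg
      | with_reducible apply O.smul
      | with_reducible apply O.cadd
      | with_reducible apply O.csub
      | with_reducible apply O.cmul
      | with_reducible apply O.cneg
      | with_reducible apply O.csmul
      | with_reducible apply O.ccj
      | with_reducible apply O.cscl
      | with_reducible apply O.cmulI
      | with_reducible apply cofR
      | with_reducible apply O.remul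
      | with_reducible apply cre
      | with_reducible apply cim
  · push_cast
    ring

theorem f_q2 (O : Ops x y z) (L : Lv x y z b t Q P) :
    AF.Enc (2 • ((b.mkG Q).g22 * (b.t11 * b.t12) + (b.mkG Q).g23 * (b.t11 * b.t11 - b.t12 * b.t12) - (b.mkG Q).g33 * (b.t11 * b.t12))) x y z
      (2 * ((mkG P t).g22 * (t11 t * t12 t) + (mkG P t).g23 * (t11 t ^ 2 - t12 t ^ 2) - (mkG P t).g33 * (t11 t * t12 t))) := by
  cases L
  apply congE
  · repeat' first
      | with_reducible assumption
      | with_reducible exact one_enc
      | with_reducible exact zer_enc
      | with_reducible exact hlf_enc
      | with_reducible exact cone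
      | with_reducible apply O.add
      | with_reducible apply O.sub
      | with_reducible apply O.mul
      | with_reducible apply O.neg
      | with_reducible apply O.smul
      | with_reducible apply O.cadd
      | with_reducible apply O.csub
      | with_reducible apply O.cmul
      | with_reducible apply O.cneg
      | with_reducible apply O.csmul
      | with_reducible apply O.ccj
      | with_reducible apply O.cscl
      | with_reducible apply O.cmulI
      | with_reducible apply cofR
      | with_reducible apply O.remul
      | with_reducible apply cre
      | with_reducible apply cim
  · push_cast
    ring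

theorem f_q3 (O : Ops x y z) (L : Lv x y z b t Q P) :
    AF.Enc (-(b.th * ((3 • Q.c31.re + 4 • Q.c22) * b.on)) + ((b.mkG Q).g22 * (b.t12 * b.t12) + 2 • ((b.mkG Q).g23 * (b.t11 * b.t12)) + (b.mkG Q).g33 * (b.t11 * b.t11))) x y z
      (-(th t * ((3 * P.c31.re + 4 * P.c22) * on t)) + ((mkG P t).g22 * t12 t ^ 2 + 2 * ((mkG P t).g23 * (t11 t * t12 t)) + (mkG P t).g33 * t11 t ^ 2)) := by
  cases L
  apply congE
  · repeat' first
      | with_reducible assumption
      | with_reducible exact one_enc
      | with_reducible exact zer_enc
      | with_reducible exact hlf_enc
      | with_reducible exact cone
      | with_reducible apply O.add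
      | with_reducible apply O.sub
      | with_reducible apply O.mul
      | with_reducible apply O.neg
      | with_reducible apply O.smul
      | with_reducible apply O.cadd
      | with_reducible apply O.csub
      | with_reducible apply O.cmul
      | with_reducible apply O.cneg
      | with_reducible apply O.csmul
      | with_reducible apply O.ccj
      | with_reducible apply O.cscl
      | with_reducible apply O.cmulI
      | with_reducible apply cofR
      | with_reducible apply O.remul
      | with_reducible apply cre
      | with_reducible apply cim
  · push_cast
    ring

theorem f_g2ca (O : Ops x y z) (L : Lv x y z b t Q P) :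
    CA.Enc (-CA.scl b.th ((10 • Q.c50 + 4 • Q.c41 + Q.c32) * b.o3)) x y z
      (((-th t : ℝ) : ℂ) * ((10 * P.c50 + 4 * P.c41 + P.c32) * om t ^ 3)) := by
  cases L
  apply congC
  · repeat' first
      | with_reducible assumption
      | with_reducible exact one_enc
      | with_reducible exact zer_enc
      | with_reducible exact hlf_enc
      | with_reducible exact cone
      | with_reducible apply O.add
      | with_reducible apply O.sub
      | with_reducible apply O.mul
      | with_reducible apply O.neg
      | with_reducible apply O.smul
      | with_reducible apply O.cadd
      | with_reducible apply O.csub
      | with_reducible apply O.cmul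
      | with_reducible apply O.cneg
      | with_reducible apply O.csmul
      | with_reducible apply O.ccj
      | with_reducible apply O.cscl
      | with_reducible apply O.cmulI
      | with_reducible apply cofR
      | with_reducible apply O.remul
      | with_reducible apply cre
      | with_reducible apply cim
  · push_cast
    ring

theorem f_g2cb (O : Ops x y z) (L : Lv x y z b t Q P) :
    CA.Enc (-CA.scl b.th ((6 • Q.c41 + 6 • Q.c32 + 3 • Q.c32.cj) * (b.o2 * b.om.cj))) x y z
      (((-th t : ℝ) : ℂ) * ((6 * P.c41 + 6 * P.c32 + 3 * cj P.c32) * (om t ^ 2 * cj (om t)))) := by
  cases L
  apply congC
  · repeat' first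
      | with_reducible assumption
      | with_reducible exact one_enc
      | with_reducible exact zer_enc
      | with_reducible exact hlf_enc
      | with_reducible exact cone
      | with_reducible apply O.add
      | with_reducible apply O.sub
      | with_reducible apply O.mul
      | with_reducible apply O.neg
      | with_reducible apply O.smul
      | with_reducible apply O.cadd
      | with_reducible apply O.csub
      | with_reducible apply O.cmul
      | with_reducible apply O.cneg
      | with_reducible apply O.csmul
      | with_reducible apply O.ccj
      | with_reducible apply O.cscl
      | with_reducible apply O.cmulI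
      | with_reducible apply cofR
      | with_reducible apply O.remul
      | with_reducible apply cre
      | with_reducible apply cim
  · push_cast
    ring

theorem f_g3k (O : Ops x y z) (L : Lv x y z b t Q P) :
    AF.Enc (b.th2 * ((b.c30 Q + b.c21 Q + b.al Q).re + b.be Q) - 2 • (b.th * (b.mkG Q).g12)) x y z
      (th t ^ 2 * ((c30 P t + c21 P t + al P t).re + be P t) - 2 * (th t * (mkG P t).g12)) := by
  cases L
  apply congE
  · repeat' first
      | with_reducible assumption
      | with_reducible exact one_enc
      | with_reducible exact zer_enc
      | with_reducible exact hlf_enc
      | with_reducible exact cone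
      | with_reducible apply O.add
      | with_reducible apply O.sub
      | with_reducible apply O.mul
      | with_reducible apply O.neg
      | with_reducible apply O.smul
      | with_reducible apply O.cadd
      | with_reducible apply O.csub
      | with_reducible apply O.cmul
      | with_reducible apply O.cneg
      | with_reducible apply O.csmul
      | with_reducible apply O.ccj
      | with_reducible apply O.cscl
      | with_reducible apply O.cmulI
      | with_reducible apply cofR
      | with_reducible apply O.remul
      | with_reducible apply cre
      | with_reducible apply cim
  · push_cast
    ring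

theorem f_g3la (O : Ops x y z) (L : Lv x y z b t Q P) :
    CA.Enc (CA.scl b.th2 ((4 • Q.c40 + 3 • Q.c31 + Q.c31.cj + CA.ofR (4 • Q.c22)) * b.om)) x y z
      (((th t ^ 2 : ℝ) : ℂ) * ((4 * P.c40 + 3 * P.c31 + cj P.c31 + ((4 * P.c22 : ℝ) : ℂ)) * om t)) := by
  cases L
  apply congC
  · repeat' first
      | with_reducible assumption
      | with_reducible exact one_enc
      | with_reducible exact zer_enc
      | with_reducible exact hlf_enc
      | with_reducible exact cone
      | with_reducible apply O.add
      | with_reducible apply O.sub
      | with_reducible apply O.mul
      | with_reducible apply O.neg
      | with_reducible apply O.smul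
      | with_reducible apply O.cadd
      | with_reducible apply O.csub
      | with_reducible apply O.cmul
      | with_reducible apply O.cneg
      | with_reducible apply O.csmul
      | with_reducible apply O.ccj
      | with_reducible apply O.cscl
      | with_reducible apply O.cmulI
      | with_reducible apply cofR
      | with_reducible apply O.remul
      | with_reducible apply cre
      | with_reducible apply cim
  · push_cast
    ring

theorem f_g3lb1 (O : Ops x y z) (L : Lv x y z b t Q P) :
    AF.Enc (-(2 • (b.th * ((b.mkG Q).g22 * b.t11 - (b.mkG Q).g23 * b.t12)))) x y z
      (-(2 * (th t * ((mkG P t).g22 * t11 t - (mkG P t).g23 * t12 t)))) := by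
  cases L
  apply congE
  · repeat' first
      | with_reducible assumption
      | with_reducible exact one_enc
      | with_reducible exact zer_enc
      | with_reducible exact hlf_enc
      | with_reducible exact cone
      | with_reducible apply O.add
      | with_reducible apply O.sub
      | with_reducible apply O.mul
      | with_reducible apply O.neg
      | with_reducible apply O.smul
      | with_reducible apply O.cadd
      | with_reducible apply O.csub
      | with_reducible apply O.cmul
      | with_reducible apply O.cneg
      | with_reducible apply O.csmul
      | with_reducible apply O.ccj
      | with_reducible apply O.cscl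
      | with_reducible apply O.cmulI
      | with_reducible apply cofR
      | with_reducible apply O.remul
      | with_reducible apply cre
      | with_reducible apply cim
  · push_cast
    ring

theorem f_g3lb2 (O : Ops x y z) (L : Lv x y z b t Q P) :
    AF.Enc (-(2 • (b.th * ((b.mkG Q).g22 * b.t12 + (b.mkG Q).g23 * b.t11)))) x y z
      (-(2 * (th t * ((mkG P t).g22 * t12 t + (mkG P t).g23 * t11 t)))) := by
  cases L
  apply congE
  · repeat' first
      | with_reducible assumption
      | with_reducible exact one_enc
      | with_reducible exact zer_enc
      | with_reducible exact hlf_enc
      | with_reducible exact cone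
      | with_reducible apply O.add
      | with_reducible apply O.sub
      | with_reducible apply O.mul
      | with_reducible apply O.neg
      | with_reducible apply O.smul
      | with_reducible apply O.cadd
      | with_reducible apply O.csub
      | with_reducible apply O.cmul
      | with_reducible apply O.cneg
      | with_reducible apply O.csmul
      | with_reducible apply O.ccj
      | with_reducible apply O.cscl
      | with_reducible apply O.cmulI
      | with_reducible apply cofR
      | with_reducible apply O.remul
      | with_reducible apply cre
      | with_reducible apply cim
  · push_cast
    ring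

theorem f_g3qa (O : Ops x y z) (L : Lv x y z b t Q P) :
    CA.Enc (CA.scl b.th2 ((10 • Q.c50 + 6 • Q.c41 + 3 • Q.c32 + Q.c32.cj) * b.o2)) x y z
      (((th t ^ 2 : ℝ) : ℂ) * ((10 * P.c50 + 6 * P.c41 + 3 * P.c32 + cj P.c32) * om t ^ 2)) := by
  cases L
  apply congC
  · repeat' first
      | with_reducible assumption
      | with_reducible exact one_enc
      | with_reducible exact zer_enc
      | with_reducible exact hlf_enc
      | with_reducible exact cone
      | with_reducible apply O.add
      | with_reducible apply O.sub
      | with_reducible apply O.mul
      | with_reducible apply O.neg
      | with_reducible apply O.smul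
      | with_reducible apply O.cadd
      | with_reducible apply O.csub
      | with_reducible apply O.cmul
      | with_reducible apply O.cneg
      | with_reducible apply O.csmul
      | with_reducible apply O.ccj
      | with_reducible apply O.cscl
      | with_reducible apply O.cmulI
      | with_reducible apply cofR
      | with_reducible apply O.remul
      | with_reducible apply cre
      | with_reducible apply cim
  · push_cast
    ring

theorem f_g3qb (O : Ops x y z) (L : Lv x y z b t Q P) :
    AF.Enc (b.th2 * ((4 • Q.c41.re + 6 • Q.c32.re) * b.on)) x y z
      (th t ^ 2 * ((4 * P.c41.re + 6 * P.c32.re) * on t)) := by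
  cases L
  apply congE
  · repeat' first
      | with_reducible assumption
      | with_reducible exact one_enc
      | with_reducible exact zer_enc
      | with_reducible exact hlf_enc
      | with_reducible exact cone
      | with_reducible apply O.add
      | with_reducible apply O.sub
      | with_reducible apply O.mul
      | with_reducible apply O.neg
      | with_reducible apply O.smul
      | with_reducible apply O.cadd
      | with_reducible apply O.csub
      | with_reducible apply O.cmul
      | with_reducible apply O.cneg
      | with_reducible apply O.csmul
      | with_reducible apply O.ccj
      | with_reducible apply O.cscl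
      | with_reducible apply O.cmulI
      | with_reducible apply cofR
      | with_reducible apply O.remul
      | with_reducible apply cre
      | with_reducible apply cim
  · push_cast
    ring

theorem f_g4k (O : Ops x y z) (L : Lv x y z b t Q P) :
    AF.Enc (-(b.th3 * ((Q.c40 + Q.c31).re + Q.c22)) + b.th2 * (b.mkG Q).g22) x y z
      (-(th t ^ 3 * ((P.c40 + P.c31).re + P.c22)) + th t ^ 2 * (mkG P t).g22) := by
  cases L
  apply congE
  · repeat' first
      | with_reducible assumption
      | with_reducible exact one_enc
      | with_reducible exact zer_enc
      | with_reducible exact hlf_enc
      | with_reducible exact cone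
      | with_reducible apply O.add
      | with_reducible apply O.sub
      | with_reducible apply O.mul
      | with_reducible apply O.neg
      | with_reducible apply O.smul
      | with_reducible apply O.cadd
      | with_reducible apply O.csub
      | with_reducible apply O.cmul
      | with_reducible apply O.cneg
      | with_reducible apply O.csmul
      | with_reducible apply O.ccj
      | with_reducible apply O.cscl
      | with_reducible apply O.cmulI
      | with_reducible apply cofR
      | with_reducible apply O.remul
      | with_reducible apply cre
      | with_reducible apply cim
  · push_cast
    ring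

theorem f_g4l (O : Ops x y z) (L : Lv x y z b t Q P) :
    CA.Enc (-CA.scl b.th3 ((5 • Q.c50 + 4 • Q.c41 + Q.c41.cj + 3 • Q.c32 + 2 • Q.c32.cj) * b.om)) x y z
      (((-(th t ^ 3) : ℝ) : ℂ) * ((5 * P.c50 + 4 * P.c41 + cj P.c41 + 3 * P.c32 + 2 * cj P.c32) * om t)) := by
  cases L
  apply congC
  · repeat' first
      | with_reducible assumption
      | with_reducible exact one_enc
      | with_reducible exact zer_enc
      | with_reducible exact hlf_enc
      | with_reducible exact cone
      | with_reducible apply O.add
      | with_reducible apply O.sub
      | with_reducible apply O.mul
      | with_reducible apply O.neg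
      | with_reducible apply O.smul
      | with_reducible apply O.cadd
      | with_reducible apply O.csub
      | with_reducible apply O.cmul
      | with_reducible apply O.cneg
      | with_reducible apply O.csmul
      | with_reducible apply O.ccj
      | with_reducible apply O.cscl
      | with_reducible apply O.cmulI
      | with_reducible apply cofR
      | with_reducible apply O.remul
      | with_reducible apply cre
      | with_reducible apply cim
  · push_cast
    ring

theorem f_g5k (O : Ops x y z) (L : Lv x y z b t Q P) :
    AF.Enc (b.th3 * b.th * (Q.c50 + Q.c41 + Q.c32).re) x y z
      (th t ^ 4 * (P.c50 + P.c41 + P.c32).re) := by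
  cases L
  apply congE
  · repeat' first
      | with_reducible assumption
      | with_reducible exact one_enc
      | with_reducible exact zer_enc
      | with_reducible exact hlf_enc
      | with_reducible exact cone
      | with_reducible apply O.add
      | with_reducible apply O.sub
      | with_reducible apply O.mul
      | with_reducible apply O.neg
      | with_reducible apply O.smul
      | with_reducible apply O.cadd
      | with_reducible apply O.csub
      | with_reducible apply O.cmul
      | with_reducible apply O.cneg
      | with_reducible apply O.csmul
      | with_reducible apply O.ccj
      | with_reducible apply O.cscl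
      | with_reducible apply O.cmulI
      | with_reducible apply cofR
      | with_reducible apply O.remul
      | with_reducible apply cre
      | with_reducible apply cim
  · push_cast
    ring

theorem f_eq (O : Ops x y z) (L : Lv x y z b t Q P) :
    CA.Enc (CA.scl b.f (b.kl * b.o2)) x y z
      ((ph t : ℂ) * (kl t * om t ^ 2)) := by
  cases L
  apply congC
  · repeat' first
      | with_reducible assumption
      | with_reducible exact one_enc
      | with_reducible exact zer_enc
      | with_reducible exact hlf_enc
      | with_reducible exact cone
      | with_reducible apply O.add
      | with_reducible apply O.sub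
      | with_reducible apply O.mul
      | with_reducible apply O.neg
      | with_reducible apply O.smul
      | with_reducible apply O.cadd
      | with_reducible apply O.csub
      | with_reducible apply O.cmul
      | with_reducible apply O.cneg
      | with_reducible apply O.csmul
      | with_reducible apply O.ccj
      | with_reducible apply O.cscl
      | with_reducible apply O.cmulI
      | with_reducible apply cofR
      | with_reducible apply O.remul
      | with_reducible apply cre
      | with_reducible apply cim
  · push_cast
    ring

theorem f_el (O : Ops x y z) (L : Lv x y z b t Q P) :
    CA.Enc (2 • CA.scl b.f (b.kap * b.lam * b.Dm 2 * b.om)) x y z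
      (((2 * ph t : ℝ) : ℂ) * (kap t * lam t * Dm t 2 * om t)) := by
  cases L
  apply congC
  · repeat' first
      | with_reducible assumption
      | with_reducible exact one_enc
      | with_reducible exact zer_enc
      | with_reducible exact hlf_enc
      | with_reducible exact cone
      | with_reducible apply O.add
      | with_reducible apply O.sub
      | with_reducible apply O.mul
      | with_reducible apply O.neg
      | with_reducible apply O.smul
      | with_reducible apply O.cadd
      | with_reducible apply O.csub
      | with_reducible apply O.cmul
      | with_reducible apply O.cneg
      | with_reducible apply O.csmul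
      | with_reducible apply O.ccj
      | with_reducible apply O.cscl
      | with_reducible apply O.cmulI
      | with_reducible apply cofR
      | with_reducible apply O.remul
      | with_reducible apply cre
      | with_reducible apply cim
  · push_cast
    ring

theorem f_ek (O : Ops x y z) (L : Lv x y z b t Q P) :
    AF.Enc (-(b.th * (b.f * (b.kap * b.lam * b.Dm 2).re))) x y z
      (-(th t * (ph t * (kap t * lam t * Dm t 2).re))) := by
  cases L
  apply congE
  · repeat' first
      | with_reducible assumption
      | with_reducible exact one_enc
      | with_reducible exact zer_enc
      | with_reducible exact hlf_enc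
      | with_reducible exact cone
      | with_reducible apply O.add
      | with_reducible apply O.sub
      | with_reducible apply O.mul
      | with_reducible apply O.neg
      | with_reducible apply O.smul
      | with_reducible apply O.cadd
      | with_reducible apply O.csub
      | with_reducible apply O.cmul
      | with_reducible apply O.cneg
      | with_reducible apply O.csmul
      | with_reducible apply O.ccj
      | with_reducible apply O.cscl
      | with_reducible apply O.cmulI
      | with_reducible apply cofR
      | with_reducible apply O.remul
      | with_reducible apply cre
      | with_reducible apply cim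
  · push_cast
    ring

theorem f_rk (O : Ops x y z) (L : Lv x y z b t Q P) :
    AF.Enc (b.kap.remul b.lk) x y z
      ((kap t * lk t).re) := by
  cases L
  apply congE
  · repeat' first
      | with_reducible assumption
      | with_reducible exact one_enc
      | with_reducible exact zer_enc
      | with_reducible exact hlf_enc
      | with_reducible exact cone
      | with_reducible apply O.add
      | with_reducible apply O.sub
      | with_reducible apply O.mul
      | with_reducible apply O.neg
      | with_reducible apply O.smul
      | with_reducible apply O.cadd
      | with_reducible apply O.csub
      | with_reducible apply O.cmul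
      | with_reducible apply O.cneg
      | with_reducible apply O.csmul
      | with_reducible apply O.ccj
      | with_reducible apply O.cscl
      | with_reducible apply O.cmulI
      | with_reducible apply cofR
      | with_reducible apply O.remul
      | with_reducible apply cre
      | with_reducible apply cim
  · push_cast
    ring

theorem f_s1 (O : Ops x y z) (L : Lv x y z b t Q P) :
    AF.Enc (b.kap.remul (b.Sg 1)) x y z
      ((kap t * Sg t 1).re) := by
  cases L
  apply congE
  · repeat' first
      | with_reducible assumption
      | with_reducible exact one_enc
      | with_reducible exact zer_enc
      | with_reducible exact hlf_enc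
      | with_reducible exact cone
      | with_reducible apply O.add
      | with_reducible apply O.sub
      | with_reducible apply O.mul
      | with_reducible apply O.neg
      | with_reducible apply O.smul
      | with_reducible apply O.cadd
      | with_reducible apply O.csub
      | with_reducible apply O.cmul
      | with_reducible apply O.cneg
      | with_reducible apply O.csmul
      | with_reducible apply O.ccj
      | with_reducible apply O.cscl
      | with_reducible apply O.cmulI
      | with_reducible apply cofR
      | with_reducible apply O.remul
      | with_reducible apply cre
      | with_reducible apply cim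
  · push_cast
    ring

theorem f_qq1 (O : Ops x y z) (L : Lv x y z b t Q P) :
    AF.Enc (b.kt * ((b.kt * b.kn + b.kk.remul (b.Sg 2)) * hlf)) x y z
      (kt t * ((kt t * kn t + (kap t ^ 2 * Sg t 2).re) / 2)) := by
  cases L
  apply congE
  · repeat' first
      | with_reducible assumption
      | with_reducible exact one_enc
      | with_reducible exact zer_enc
      | with_reducible exact hlf_enc
      | with_reducible exact cone
      | with_reducible apply O.add
      | with_reducible apply O.sub
      | with_reducible apply O.mul
      | with_reducible apply O.neg
      | with_reducible apply O.smul
      | with_reducible apply O.cadd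
      | with_reducible apply O.csub
      | with_reducible apply O.cmul
      | with_reducible apply O.cneg
      | with_reducible apply O.csmul
      | with_reducible apply O.ccj
      | with_reducible apply O.cscl
      | with_reducible apply O.cmulI
      | with_reducible apply cofR
      | with_reducible apply O.remul
      | with_reducible apply cre
      | with_reducible apply cim
  · push_cast
    ring

theorem f_im (O : Ops x y z) (L : Lv x y z b t Q P) :
    AF.Enc (b.kap.im) x y z
      ((kap t).im) := by
  cases L
  apply congE
  · repeat' first
      | with_reducible assumption
      | with_reducible exact one_enc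
      | with_reducible exact zer_enc
      | with_reducible exact hlf_enc
      | with_reducible exact cone
      | with_reducible apply O.add
      | with_reducible apply O.sub
      | with_reducible apply O.mul
      | with_reducible apply O.neg
      | with_reducible apply O.smul
      | with_reducible apply O.cadd
      | with_reducible apply O.csub
      | with_reducible apply O.cmul
      | with_reducible apply O.cneg
      | with_reducible apply O.csmul
      | with_reducible apply O.ccj
      | with_reducible apply O.cscl
      | with_reducible apply O.cmulI
      | with_reducible apply cofR
      | with_reducible apply O.remul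
      | with_reducible apply cre
      | with_reducible apply cim
  · push_cast
    ring

theorem f_il (O : Ops x y z) (L : Lv x y z b t Q P) :
    AF.Enc ((b.kap * (b.lk - (⟨AF.one, AF.zer⟩ : CA))).im) x y z
      ((kap t * (lk t - 1)).im) := by
  cases L
  apply congE
  · repeat' first
      | with_reducible assumption
      | with_reducible exact one_enc
      | with_reducible exact zer_enc
      | with_reducible exact hlf_enc
      | with_reducible exact cone
      | with_reducible apply O.add
      | with_reducible apply O.sub
      | with_reducible apply O.mul
      | with_reducible apply O.neg
      | with_reducible apply O.smul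
      | with_reducible apply O.cadd
      | with_reducible apply O.csub
      | with_reducible apply O.cmul
      | with_reducible apply O.cneg
      | with_reducible apply O.csmul
      | with_reducible apply O.ccj
      | with_reducible apply O.cscl
      | with_reducible apply O.cmulI
      | with_reducible apply cofR
      | with_reducible apply O.remul
      | with_reducible apply cre
      | with_reducible apply cim
  · push_cast
    ring

theorem f_qq2 (O : Ops x y z) (L : Lv x y z b t Q P) :
    AF.Enc (b.kt * ((b.kt * b.kn * (b.f * b.f) - (b.kk * (b.dl 1 * b.dl 1)).remul (b.Sg 2)) * hlf)) x y z
      (kt t * ((kt t * kn t * ph t ^ 2 - (kap t ^ 2 * dl t 1 ^ 2 * Sg t 2).re) / 2)) := by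
  cases L
  apply congE
  · repeat' first
      | with_reducible assumption
      | with_reducible exact one_enc
      | with_reducible exact zer_enc
      | with_reducible exact hlf_enc
      | with_reducible exact cone
      | with_reducible apply O.add
      | with_reducible apply O.sub
      | with_reducible apply O.mul
      | with_reducible apply O.neg
      | with_reducible apply O.smul
      | with_reducible apply O.cadd
      | with_reducible apply O.csub
      | with_reducible apply O.cmul
      | with_reducible apply O.cneg
      | with_reducible apply O.csmul
      | with_reducible apply O.ccj
      | with_reducible apply O.cscl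
      | with_reducible apply O.cmulI
      | with_reducible apply cofR
      | with_reducible apply O.remul
      | with_reducible apply cre
      | with_reducible apply cim
  · rw [show dl t 1 * dl t 1 = dl t 1 ^ 2 by ring]
    ring

end Pool.Agent.Helper8.DL
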