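import Pool.Agent.Helper30.DL.GoalsC

/-!
Packet MKC, part one: closure of the enclosures under the operations.
-/

set_option autoImplicit false

open Complex (I)

namespace Pool.Agent.Helper8.DL

open Pool.Agent.Helper30.DL

theorem congE {x y z : ℝ} {A : AF} {v w : ℝ} (h : A.Enc x y z v) (e : v = w) : A.Enc x y z w :=
  e ▸ h

theorem congC {x y z : ℝ} {A : CA} {v w : ℂ} (h : A.Enc x y z v) (e : v = w) : A.Enc x y z w :=
  e ▸ h

/-- The real operations. -/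
structure Ops (x y z : ℝ) : Prop where
  add : ∀ {A B : AF} {v w : ℝ}, A.Enc x y z v → B.Enc x y z w → (A + B).Enc x y z (v + w)
  sub : ∀ {A B : AF} {v w : ℝ}, A.Enc x y z v → B.Enc x y z w → (A - B).Enc x y z (v - w)
  mul : ∀ {A B : AF} {v w : ℝ}, A.Enc x y z v → B.Enc x y z w → (A * B).Enc x y z (v * w)
  neg : ∀ {A : AF} {v : ℝ}, A.Enc x y z v → (-A).Enc x y z (-v)
  smul : ∀ {A : AF} {v : ℝ} {n : ℕ}, A.Enc x y z v → (n • A).Enc x y z ((n : ℝ) * v)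

theorem ops (hS : AfsStmt) {x y z : ℝ} (hx : |x| ≤ 1) (hy : |y| ≤ 1) (hz : |z| ≤ 1) :
    Ops x y z where
  add h k := (hS x y z hx hy hz _ _ _ _ h k).1
  sub h k := (hS x y z hx hy hz _ _ _ _ h k).2.1
  mul h k := (hS x y z hx hy hz _ _ _ _ h k).2.2.1
  neg h := (hS x y z hx hy hz _ _ _ _ h h).2.2.2.1
  smul {A v n} h := by
    have := (hS x y z hx hy hz _ _ _ _ h h).2.2.2.2.1 n
    rwa [nsmul_eq_mul] at this

theorem one_enc {x y z : ℝ} : AF.one.Enc x y z 1 := by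
  unfold AF.Enc AF.one
  norm_num

theorem zer_enc {x y z : ℝ} : AF.zer.Enc x y z 0 := by
  unfold AF.Enc AF.zer
  norm_num

theorem cst_enc {x y z v : ℝ} (p n r : ℕ) (h : |(10000000000 : ℝ) * v - ((p : ℝ) - n)| ≤ r) :
    (AF.cst p n r).Enc x y z v := by
  unfold AF.Enc AF.cst
  simpa using h

theorem hlf_enc {x y z : ℝ} : hlf.Enc x y z (1 / 2) := by
  unfold hlf
  refine cst_enc _ _ _ ?_
  norm_num

theorem c3_enc {x y z : ℝ} : (AF.cst 3333333333 0 1).Enc x y z (1 / 3) := by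
  refine cst_enc _ _ _ ?_
  rw [abs_le]
  norm_num

theorem c6_enc {x y z : ℝ} : (AF.cst 1666666667 0 1).Enc x y z (1 / 6) := by
  refine cst_enc _ _ _ ?_
  rw [abs_le]
  norm_num

theorem c24_enc {x y z : ℝ} : (AF.cst 416666667 0 1).Enc x y z (1 / 24) := by
  refine cst_enc _ _ _ ?_
  rw [abs_le]
  norm_num

theorem c120_enc {x y z : ℝ} : (AF.cst 83333333 0 1).Enc x y z (1 / 120) := by
  refine cst_enc _ _ _ ?_
  rw [abs_le]
  norm_num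

theorem c720_enc {x y z : ℝ} : (AF.cst 13888889 0 1).Enc x y z (1 / 720) := by
  refine cst_enc _ _ _ ?_
  rw [abs_le]
  norm_num

theorem c5040_enc {x y z : ℝ} : (AF.cst 1984127 0 1).Enc x y z (1 / 5040) := by
  refine cst_enc _ _ _ ?_
  rw [abs_le]
  norm_num

section complex

variable {x y z : ℝ} (O : Ops x y z)

include O

theorem Ops.cadd {a b : CA} {v w : ℂ} (h : a.Enc x y z v) (k : b.Enc x y z w) :
    (a + b).Enc x y z (v + w) :=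
  ⟨O.add h.1 k.1, O.add h.2 k.2⟩

theorem Ops.csub {a b : CA} {v w : ℂ} (h : a.Enc x y z v) (k : b.Enc x y z w) :
    (a - b).Enc x y z (v - w) :=
  ⟨O.sub h.1 k.1, O.sub h.2 k.2⟩

theorem Ops.cmul {a b : CA} {v w : ℂ} (h : a.Enc x y z v) (k : b.Enc x y z w) :
    (a * b).Enc x y z (v * w) :=
  ⟨O.sub (O.mul h.1 k.1) (O.mul h.2 k.2), O.add (O.mul h.1 k.2) (O.mul h.2 k.1)⟩

theorem Ops.cneg {a : CA} {v : ℂ} (h : a.Enc x y z v) : (-a).Enc x y z (-v) :=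
  ⟨O.neg h.1, O.neg h.2⟩

theorem Ops.ccj {a : CA} {v : ℂ} (h : a.Enc x y z v) : a.cj.Enc x y z (cj v) :=
  ⟨congE h.1 (by simp [cj]), congE (O.neg h.2) (by simp [cj])⟩

theorem Ops.cscl {s : AF} {a : CA} {r : ℝ} {v : ℂ} (hs : s.Enc x y z r) (h : a.Enc x y z v) :
    (CA.scl s a).Enc x y z ((r : ℂ) * v) :=
  ⟨congE (O.mul hs h.1) (by simp), congE (O.mul hs h.2) (by simp)⟩

theorem Ops.cmulI {a : CA} {v : ℂ} (h : a.Enc x y z v) : (CA.mulI a).Enc x y z (I * v) :=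
  ⟨congE (O.neg h.2) (by simp), congE h.1 (by simp)⟩

omit O in
theorem cofR {a : AF} {r : ℝ} (h : a.Enc x y z r) : (CA.ofR a).Enc x y z (r : ℂ) :=
  ⟨congE h (by simp), congE zer_enc (by simp)⟩

theorem Ops.csmul {a : CA} {v : ℂ} {n : ℕ} (h : a.Enc x y z v) :
    (n • a).Enc x y z ((n : ℂ) * v) :=
  ⟨congE (O.smul h.1) (by simp), congE (O.smul h.2) (by simp)⟩

omit O in
theorem cone : (⟨AF.one, AF.zer⟩ : CA).Enc x y z 1 :=
  ⟨congE one_enc (by simp), congE zer_enc (by simp)⟩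

theorem Ops.remul {a b : CA} {v w : ℂ} (h : a.Enc x y z v) (k : b.Enc x y z w) :
    (a.remul b).Enc x y z (v * w).re :=
  O.sub (O.mul h.1 k.1) (O.mul h.2 k.2)

omit O in
theorem cre {a : CA} {v : ℂ} (h : a.Enc x y z v) : a.re.Enc x y z v.re := h.1

omit O in
theorem cim {a : CA} {v : ℂ} (h : a.Enc x y z v) : a.im.Enc x y z v.im := h.2

end complex

/-- enclosure of a linear form -/
def E1 (x y z : ℝ) (A : H1 AF) (R : H1 ℝ) : Prop := A.a.Enc x y z R.a ∧ A.b.Enc x y z R.b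
/-- enclosure of a quadratic form -/
def E2 (x y z : ℝ) (A : H2 AF) (R : H2 ℝ) : Prop :=
  A.a.Enc x y z R.a ∧ A.b.Enc x y z R.b ∧ A.c.Enc x y z R.c
/-- enclosure of a cubic form -/
def E3 (x y z : ℝ) (A : H3 AF) (R : H3 ℝ) : Prop :=
  A.a.Enc x y z R.a ∧ A.b.Enc x y z R.b ∧ A.c.Enc x y z R.c ∧ A.d.Enc x y z R.d
/-- enclosure of a quartic form -/
def E4 (x y z : ℝ) (A : H4 AF) (R : H4 ℝ) : Prop :=
  A.a.Enc x y z R.a ∧ A.b.Enc x y z R.b ∧ A.c.Enc x y z R.c ∧ A.d.Enc x y z R.d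
    ∧ A.e.Enc x y z R.e
/-- enclosure of a quintic form -/
def E5 (x y z : ℝ) (A : H5 AF) (R : H5 ℝ) : Prop :=
  A.a.Enc x y z R.a ∧ A.b.Enc x y z R.b ∧ A.c.Enc x y z R.c ∧ A.d.Enc x y z R.d
    ∧ A.e.Enc x y z R.e ∧ A.f.Enc x y z R.f

section forms

variable {x y z : ℝ} (O : Ops x y z)

include O

theorem Ops.fre1 {c : CA} {w : ℂ} (h : c.Enc x y z w) : E1 x y z (re1A c) (re1 w) :=
  ⟨h.1, O.neg h.2⟩

theorem Ops.fre2 {c : CA} {w : ℂ} (h : c.Enc x y z w) : E2 x y z (re2A c) (re2 w) :=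
  ⟨h.1, congE (O.neg (O.smul h.2)) (by simp [re2]), O.neg h.1⟩

omit O in
theorem fab2 {c : AF} {w : ℝ} (h : c.Enc x y z w) : E2 x y z (ab2A c) (ab2 w) :=
  ⟨h, zer_enc, h⟩

theorem Ops.fre3 {c : CA} {w : ℂ} (h : c.Enc x y z w) : E3 x y z (re3A c) (re3 w) :=
  ⟨h.1, congE (O.neg (O.smul h.2)) (by simp [re3]), congE (O.neg (O.smul h.1)) (by simp [re3]), h.2⟩

theorem Ops.fab3 {c : CA} {w : ℂ} (h : c.Enc x y z w) : E3 x y z (ab3A c) (ab3 w) :=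
  ⟨h.1, O.neg h.2, h.1, O.neg h.2⟩

theorem Ops.fre4 {c : CA} {w : ℂ} (h : c.Enc x y z w) : E4 x y z (re4A c) (re4 w) :=
  ⟨h.1, congE (O.neg (O.smul h.2)) (by simp [re4]), congE (O.neg (O.smul h.1)) (by simp [re4]),
    congE (O.smul h.2) (by simp [re4]), h.1⟩

theorem Ops.fab4 {c : CA} {w : ℂ} (h : c.Enc x y z w) : E4 x y z (ab4A c) (ab4 w) :=
  ⟨h.1, congE (O.neg (O.smul h.2)) (by simp [ab4]), zer_enc,
    congE (O.neg (O.smul h.2)) (by simp [ab4]), O.neg h.1⟩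

theorem Ops.faa4 {c : AF} {w : ℝ} (h : c.Enc x y z w) : E4 x y z (aa4A c) (aa4 w) :=
  ⟨h, zer_enc, congE (O.smul h) (by simp [aa4]), zer_enc, h⟩

theorem Ops.fre5 {c : CA} {w : ℂ} (h : c.Enc x y z w) : E5 x y z (re5A c) (re5 w) :=
  ⟨h.1, congE (O.neg (O.smul h.2)) (by simp [re5]), congE (O.neg (O.smul h.1)) (by simp [re5]),
    congE (O.smul h.2) (by simp [re5]), congE (O.smul h.1) (by simp [re5]), O.neg h.2⟩

theorem Ops.fab5 {c : CA} {w : ℂ} (h : c.Enc x y z w) : E5 x y z (ab5A c) (ab5 w) :=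
  ⟨h.1, congE (O.neg (O.smul h.2)) (by simp [ab5]), congE (O.neg (O.smul h.1)) (by simp [ab5]),
    congE (O.neg (O.smul h.2)) (by simp [ab5]), congE (O.neg (O.smul h.1)) (by simp [ab5]), h.2⟩

theorem Ops.faa5 {c : CA} {w : ℂ} (h : c.Enc x y z w) : E5 x y z (aa5A c) (aa5 w) :=
  ⟨h.1, O.neg h.2, congE (O.smul h.1) (by simp [aa5]), congE (O.neg (O.smul h.2)) (by simp [aa5]),
    h.1, O.neg h.2⟩

theorem Ops.add1 {A B : H1 AF} {R S : H1 ℝ} (h : E1 x y z A R) (k : E1 x y z B S) :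
    E1 x y z (A.addA B) (R.add S) :=
  ⟨O.add h.1 k.1, O.add h.2 k.2⟩

theorem Ops.add2 {A B : H2 AF} {R S : H2 ℝ} (h : E2 x y z A R) (k : E2 x y z B S) :
    E2 x y z (A.addA B) (R.add S) :=
  ⟨O.add h.1 k.1, O.add h.2.1 k.2.1, O.add h.2.2 k.2.2⟩

theorem Ops.add3 {A B : H3 AF} {R S : H3 ℝ} (h : E3 x y z A R) (k : E3 x y z B S) :
    E3 x y z (A.addA B) (R.add S) :=
  ⟨O.add h.1 k.1, O.add h.2.1 k.2.1, O.add h.2.2.1 k.2.2.1, O.add h.2.2.2 k.2.2.2⟩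

theorem Ops.add4 {A B : H4 AF} {R S : H4 ℝ} (h : E4 x y z A R) (k : E4 x y z B S) :
    E4 x y z (A.addA B) (R.add S) :=
  ⟨O.add h.1 k.1, O.add h.2.1 k.2.1, O.add h.2.2.1 k.2.2.1, O.add h.2.2.2.1 k.2.2.2.1,
    O.add h.2.2.2.2 k.2.2.2.2⟩

theorem Ops.add5 {A B : H5 AF} {R S : H5 ℝ} (h : E5 x y z A R) (k : E5 x y z B S) :
    E5 x y z (A.addA B) (R.add S) :=
  ⟨O.add h.1 k.1, O.add h.2.1 k.2.1, O.add h.2.2.1 k.2.2.1, O.add h.2.2.2.1 k.2.2.2.1,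
    O.add h.2.2.2.2.1 k.2.2.2.2.1, O.add h.2.2.2.2.2 k.2.2.2.2.2⟩

end forms

end Pool.Agent.Helper8.DL
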